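import Pool.Agent.H272R3.SR.Main

set_option autoImplicit false

/-!
There is a hyperarithmetic class `K` of computable structures which, up to isomorphism, has
exactly one member of noncomputable Scott rank.

The class consists of all computable copies of one computable structure `A`. The structure is a
system of torsors over a computable tree which has infinite paths but no hyperarithmetic ones. The
tree is built by a priority construction so that every computable copy of `A` is computably
isomorphic to `A`; hence the index set of the copies of `A` is hyperarithmetic (it is even
arithmetical). The automorphisms of `A` correspond to the systems of paths through the tree, and
the orbit equivalence relation of `A` is not `Δ¹₁`. If the Scott rank of `A` were a computable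
ordinal `α`, then the orbit equivalence relation would be the back-and-forth relation of level `α`,
which is `Δ¹₁`.
-/

namespace Pool.Agent.Results.MP_9125cf_lc.UniqueHighRank

open Pool.Agent.Helper941.Hyp Pool.Agent.H272R3.SR

/-- There are a computable relational language (with symbols `R_0, R_1, …`, where `R_i` has arity
`ar i`) and a hyperarithmetic class `K` of computable structures in this language such that some
member of `K` has noncomputable Scott rank and any two members of `K` are isomorphic. In
particular, up to isomorphism, exactly one structure in `K` has noncomputable Scott rank. -/
theorem result : ∃ ar : ℕ → ℕ, Computable ar ∧ ∃ K : Set (Struct ar), HypClass K ∧
    (∃ A ∈ K, omega1CK ≤ scottRank A) ∧ ∀ A ∈ K, ∀ B ∈ K, Iso A B :=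
  main

end Pool.Agent.Results.MP_9125cf_lc.UniqueHighRank
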